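import Mathlib

set_option autoImplicit false

namespace Pool.Agent.Results.MP_55b43c_co.NotMonotone
open Finset

/-- The cops moved from `c` to `c'` and the robot from `r` to `r'`: it is captured if it ends on a
cop, or if it traversed an edge that some cop traversed in this round. -/
def Captured {V : Type} {k : ℕ} (c c' : Fin k → V) (r r' : V) : Prop :=
  (∃ i, c' i = r') ∨ (r ≠ r' ∧ ∃ i, s(c i, c' i) = s(r, r'))

/-- `Win G c r`: with the cops on `c`, the robot on `r` and a round about to start, the cops can
force a capture: they have a move after which every answer of the robot is a capture or leads to a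
position won by the cops. -/
inductive Win {V : Type} {k : ℕ} (G : SimpleGraph V) : (Fin k → V) → V → Prop
  | step (c : Fin k → V) (r : V) (c' : Fin k → V) (hc : ∀ i, c' i = c i ∨ G.Adj (c i) (c' i))
      (h : ∀ r', (r' = r ∨ G.Adj r r') → ¬ Captured c c' r r' → Win G c' r') : Win G c r

abbrev W (n : ℕ) := Fin n ⊕ Fin n × Fin n

def rel {n : ℕ} : W n → W n → Prop
  | .inl x, .inr p => x = p.1 ∨ x = p.2
  | .inr p, .inl x => x = p.1 ∨ x = p.2
  | _, _ => False

def H (n : ℕ) : SimpleGraph (W n) where
  Adj := rel
  symm := ⟨by rintro (a | a) (b | b) h <;> exact h⟩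
  loopless := ⟨by rintro (a | a) h <;> exact h⟩

def rel' {n : ℕ} : Option (W n) → Option (W n) → Prop
  | none, none => False
  | some a, some b => rel a b
  | _, _ => True

def G (n : ℕ) : SimpleGraph (Option (W n)) where
  Adj := rel'
  symm := ⟨by rintro (_ | a) (_ | b) h <;> first | exact h | exact (H n).symm.symm _ _ h⟩
  loopless := ⟨by rintro (_ | a) h <;> first | exact h | exact (H n).loopless.irrefl _ h⟩

def ends {n : ℕ} : W n → Finset (Fin n)
  | .inl x => {x}
  | .inr p => {p.1, p.2}

theorem card_ends {n : ℕ} (z : W n) : (ends z).card ≤ 2 := by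
  rcases z with x | p
  · simp [ends]
  · exact card_le_two

theorem free {n j : ℕ} (hn : 2 * j + 1 < n) (v : Fin n) (z : Fin j → W n) :
    ∃ w, w ≠ v ∧ ∀ i, w ∉ ends (z i) := by
  have : (insert v (univ.biUnion fun i => ends (z i))).card < (univ : Finset (Fin n)).card := by
    refine (card_insert_le _ _).trans_lt ?_
    have := card_biUnion_le_card_mul univ (fun i => ends (z i)) 2 (fun i _ => card_ends _)
    simp only [card_univ, Fintype.card_fin] at this ⊢
    omega
  obtain ⟨w, -, hw⟩ := exists_mem_notMem_of_card_lt_card this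
  exact ⟨w, by simpa using hw⟩

theorem evade {n j : ℕ} (hn : 2 * j + 1 < n) (c : Fin j → W n) (r : W n) (h : Win (H n) c r) :
    (∀ v, r ≠ .inl v) ∧ ∀ v w, r = .inr (v, w) → ∃ i, w ∈ ends (c i) := by
  induction h with
  | step c r c' hc _ ih =>
    constructor
    · rintro v rfl
      obtain ⟨w, h1, h2⟩ := free hn v fun i => if c' i = .inl v then c i else c' i
      have h3 : ∀ i, w ∉ ends (c' i) := by
        intro i hi
        have := h2 i
        split_ifs at this with e
        · rw [e] at hi; exact h1 (by simpa [ends] using hi)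
        · exact this hi
      refine (not_exists.2 h3) ((ih (.inr (v, w)) (Or.inr (Or.inl rfl)) ?_).2 v w rfl)
      rintro (⟨i, e⟩ | ⟨-, i, e⟩)
      · exact h3 i (by simp [e, ends])
      · rcases Sym2.eq_iff.1 e with e | e
        · exact h3 i (by simp [e.2, ends])
        · exact h2 i (by simp [e.1, e.2, ends])
    · rintro v w rfl
      by_contra h1
      refine (ih (.inl w) (Or.inr (Or.inr rfl)) ?_).1 w rfl
      have h2 : ∀ i, c' i ≠ .inl w := by
        intro i e
        refine h1 ⟨i, ?_⟩
        rcases hc i with h | h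
        · simp [← h, e, ends]
        · rw [e] at h
          rcases hi : c i with x | p <;> rw [hi] at h
          · exact h.elim
          · exact mem_insert.2 (h.imp id mem_singleton.2)
      rintro (⟨i, e⟩ | ⟨-, i, e⟩)
      · exact h2 i e
      · rcases Sym2.eq_iff.1 e with e | e
        · exact h2 i e.2
        · exact h1 ⟨i, by simp [e.1, ends]⟩

theorem win_sub {n : ℕ} (a b : Fin n) (z : Option (W n)) (hz : z = none ∨ z = some (.inl a)) :
    Win (G n) ![z, none, none] (some (.inr (a, b))) := by
  rcases hz with rfl | rfl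
  · refine .step _ _ ![some (.inr (a, b)), some (.inl a), some (.inl b)] ?_ ?_
    · intro i; fin_cases i <;> exact Or.inr trivial
    · rintro r (rfl | h) hn
      · exact (hn (Or.inl ⟨0, rfl⟩)).elim
      · rcases r with _ | x | p
        · exact (hn (Or.inr ⟨by simp, 0, Sym2.eq_swap⟩)).elim
        · rcases h with rfl | rfl
          · exact (hn (Or.inl ⟨1, rfl⟩)).elim
          · exact (hn (Or.inl ⟨2, rfl⟩)).elim
        · exact h.elim
  · refine .step _ _ ![some (.inr (a, b)), none, some (.inl b)] ?_ ?_
    · intro i; fin_cases i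
      · exact Or.inr (Or.inl rfl)
      · exact Or.inl rfl
      · exact Or.inr trivial
    · rintro r (rfl | h) hn
      · exact (hn (Or.inl ⟨0, rfl⟩)).elim
      · rcases r with _ | x | p
        · exact (hn (Or.inl ⟨1, rfl⟩)).elim
        · rcases h with rfl | rfl
          · exact (hn (Or.inr ⟨by simp, 0, Sym2.eq_swap⟩)).elim
          · exact (hn (Or.inl ⟨2, rfl⟩)).elim
        · exact h.elim

theorem win_sub' {n : ℕ} (a b : Fin n) :
    Win (G n) ![some (.inl b), none, none] (some (.inr (a, b))) := by
  refine .step _ _ ![some (.inr (a, b)), none, some (.inl a)] ?_ ?_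
  · intro i; fin_cases i
    · exact Or.inr (Or.inr rfl)
    · exact Or.inl rfl
    · exact Or.inr trivial
  · rintro r (rfl | h) hn
    · exact (hn (Or.inl ⟨0, rfl⟩)).elim
    · rcases r with _ | x | p
      · exact (hn (Or.inl ⟨1, rfl⟩)).elim
      · rcases h with rfl | rfl
        · exact (hn (Or.inl ⟨2, rfl⟩)).elim
        · exact (hn (Or.inr ⟨by simp, 0, Sym2.eq_swap⟩)).elim
      · exact h.elim

theorem win_some {n : ℕ} (r : W n) : Win (G n) ![none, none, none] (some r) := by
  rcases r with v | ⟨a, b⟩
  · refine .step _ _ ![some (.inl v), none, none] ?_ ?_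
    · intro i; fin_cases i
      · exact Or.inr trivial
      · exact Or.inl rfl
      · exact Or.inl rfl
    · rintro r (rfl | h) hn
      · exact (hn (Or.inl ⟨0, rfl⟩)).elim
      · rcases r with _ | x | ⟨a, b⟩
        · exact (hn (Or.inl ⟨1, rfl⟩)).elim
        · exact h.elim
        · rcases h with rfl | rfl
          · exact win_sub _ _ _ (Or.inr rfl)
          · exact win_sub' _ _
  · exact win_sub a b none (Or.inl rfl)

theorem result (k : ℕ) : ∃ (V U : Type) (_ : Finite V) (_ : Finite U) (G : SimpleGraph V)
    (H : SimpleGraph U), G.Connected ∧ H.Connected ∧ H.IsContained G ∧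
    (∃ c : Fin 3 → V, ∀ r, Win G c r) ∧
    ∀ j ≤ k, ∀ c : Fin j → U, ∃ r, (∀ i, c i ≠ r) ∧ ¬ Win H c r := by
  refine ⟨_, _, inferInstance, inferInstance, G (2 * k + 2), H (2 * k + 2), ?_, ?_,
    ⟨⟨⟨some, fun h => h⟩, Option.some_injective _⟩⟩, ⟨![none, none, none], ?_⟩, ?_⟩
  · rw [SimpleGraph.connected_iff_exists_forall_reachable]
    refine ⟨none, ?_⟩
    rintro (_ | w)
    · rfl
    · exact SimpleGraph.Adj.reachable trivial
  · rw [SimpleGraph.connected_iff_exists_forall_reachable]
    have key : ∀ a b, (H (2 * k + 2)).Reachable (.inl a) (.inr (a, b)) :=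
      fun a b => SimpleGraph.Adj.reachable (Or.inl rfl)
    have key2 : ∀ a b, (H (2 * k + 2)).Reachable (.inl a) (.inl b) :=
      fun a b => (key a b).trans (SimpleGraph.Adj.reachable (Or.inr rfl))
    refine ⟨.inl 0, ?_⟩
    rintro (x | ⟨a, b⟩)
    · exact key2 _ _
    · exact (key2 _ _).trans (key _ _)
  · rintro (_ | r)
    · refine .step _ _ ![none, none, none] (fun _ => Or.inl rfl) ?_
      rintro (_ | r) - hn
      · exact (hn (Or.inl ⟨0, rfl⟩)).elim
      · exact win_some r
    · exact win_some r
  · intro j hj c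
    obtain ⟨w, -, hw⟩ := free (n := 2 * k + 2) (by omega) 0 c
    exact ⟨.inl w, fun i e => hw i (by simp [e, ends]),
      fun h => (evade (by omega) c _ h).1 w rfl⟩

end Pool.Agent.Results.MP_55b43c_co.NotMonotone
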